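import Mathlib
import Pool.Agent.Q254.Theta.Stm

/-!
# Theta coefficients, job A
-/

set_option autoImplicit false

open PowerSeries Finset

namespace Pool.Agent.Q285.Theta.A

open Pool.Agent.Q254.Theta

lemma dl_add (g f h : ℚ⟦X⟧) : dl g (f + h) = dl g f + dl g h := by
  unfold dl; rw [map_add]; ring

lemma dl_C (g f : ℚ⟦X⟧) (c : ℚ) : dl g (C c * f) = C c * dl g f := by
  unfold dl
  rw [Derivation.leibniz, derivative_C, smul_zero, add_zero, smul_eq_mul]
  ring

lemma dl_sub (g f h : ℚ⟦X⟧) : dl g (f - h) = dl g f - dl g h := by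
  unfold dl; rw [map_sub]; ring

lemma iter_sub (g : ℚ⟦X⟧) (j : ℕ) : ∀ f h : ℚ⟦X⟧,
    (dl g)^[j] (f - h) = (dl g)^[j] f - (dl g)^[j] h := by
  induction j with
  | zero => intro f h; rfl
  | succ j ih => intro f h; rw [Function.iterate_succ_apply, dl_sub, ih]; rfl

lemma iter_add (g : ℚ⟦X⟧) (j : ℕ) : ∀ f h : ℚ⟦X⟧,
    (dl g)^[j] (f + h) = (dl g)^[j] f + (dl g)^[j] h := by
  induction j with
  | zero => intro f h; rfl
  | succ j ih => intro f h; rw [Function.iterate_succ_apply, dl_add, ih]; rfl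

lemma iter_C (g : ℚ⟦X⟧) (j : ℕ) (c : ℚ) : ∀ f : ℚ⟦X⟧,
    (dl g)^[j] (C c * f) = C c * (dl g)^[j] f := by
  induction j with
  | zero => intro f; rfl
  | succ j ih => intro f; rw [Function.iterate_succ_apply, dl_C, ih]; rfl

lemma iter_zero (g : ℚ⟦X⟧) (j : ℕ) : (dl g)^[j] 0 = 0 := by
  have h := iter_sub g j 0 0
  rwa [sub_self, sub_self] at h

lemma iter_sum (g : ℚ⟦X⟧) (j : ℕ) (s : Finset ℕ) (F : ℕ → ℚ⟦X⟧) :
    (dl g)^[j] (∑ k ∈ s, F k) = ∑ k ∈ s, (dl g)^[j] (F k) := by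
  classical
  induction s using Finset.induction_on with
  | empty => simp [iter_zero]
  | insert a s ha ih => rw [sum_insert ha, sum_insert ha, iter_add, ih]

lemma dl_pow {g U : ℚ⟦X⟧} (h : g * PowerSeries.derivative ℚ U = 1) (i : ℕ) :
    dl g (U ^ i) = C (i : ℚ) * U ^ (i - 1) := by
  unfold dl
  rw [derivative_pow]
  have e : (C (i : ℚ) : ℚ⟦X⟧) = (i : ℚ⟦X⟧) := map_natCast C i
  rw [e]
  linear_combination ((i : ℚ⟦X⟧) * U ^ (i - 1)) * h

lemma iter_pow {g U : ℚ⟦X⟧} (h : g * PowerSeries.derivative ℚ U = 1) (i j : ℕ) :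
    (dl g)^[j] (U ^ i) = C (i.descFactorial j : ℚ) * U ^ (i - j) := by
  induction j with
  | zero => simp
  | succ j ih =>
    rw [Function.iterate_succ_apply', ih, dl_C, dl_pow h, ← mul_assoc, ← map_mul,
      Nat.descFactorial_succ]
    rw [show i - j - 1 = i - (j + 1) by omega]
    congr 2
    push_cast
    ring

lemma X_dvd_dl (g : ℚ⟦X⟧) {f : ℚ⟦X⟧} {i : ℕ} (h : (X : ℚ⟦X⟧) ^ (i + 1) ∣ f) :
    (X : ℚ⟦X⟧) ^ i ∣ dl g f := by
  unfold dl
  refine Dvd.dvd.mul_left ?_ g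
  rw [X_pow_dvd_iff] at h ⊢
  intro m hm
  rw [coeff_derivative, h (m + 1) (by omega), zero_mul]

lemma const_iter (g : ℚ⟦X⟧) (j : ℕ) : ∀ f : ℚ⟦X⟧, (X : ℚ⟦X⟧) ^ (j + 1) ∣ f →
    constantCoeff ((dl g)^[j] f) = 0 := by
  induction j with
  | zero =>
    intro f h
    rw [Function.iterate_zero, id, ← coeff_zero_eq_constantCoeff_apply]
    exact X_pow_dvd_iff.1 h 0 (by omega)
  | succ j ih =>
    intro f h
    rw [Function.iterate_succ_apply]
    exact ih _ (X_dvd_dl g h)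

lemma const_U : constantCoeff U = 0 := by
  rw [← coeff_zero_eq_constantCoeff_apply, U, coeff_mk]; simp

lemma u_zero : u 0 = 1 := by
  rw [u]; simp [Pi1]

lemma even_mul {f h : ℚ⟦X⟧} (hf : ∀ i, i % 2 = 1 → coeff i f = 0)
    (hh : ∀ i, i % 2 = 1 → coeff i h = 0) : ∀ i, i % 2 = 1 → coeff i (f * h) = 0 := by
  intro i hi
  rw [coeff_mul]
  refine sum_eq_zero fun x hx => ?_
  rw [HasAntidiagonal.mem_antidiagonal] at hx
  rcases Nat.mod_two_eq_zero_or_one x.1 with h1 | h1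
  · rw [hh x.2 (by omega), mul_zero]
  · rw [hf x.1 h1, zero_mul]

lemma odd_mul {f h : ℚ⟦X⟧} (hf : ∀ i, i % 2 = 0 → coeff i f = 0)
    (hh : ∀ i, i % 2 = 0 → coeff i h = 0) : ∀ i, i % 2 = 1 → coeff i (f * h) = 0 := by
  intro i hi
  rw [coeff_mul]
  refine sum_eq_zero fun x hx => ?_
  rw [HasAntidiagonal.mem_antidiagonal] at hx
  rcases Nat.mod_two_eq_zero_or_one x.1 with h1 | h1
  · rw [hf x.1 h1, zero_mul]
  · rw [hh x.2 (by omega), mul_zero]

lemma U_even (k : ℕ) : ∀ i, i % 2 = 1 → coeff i (U ^ (2 * k)) = 0 := by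
  have h1 : ∀ i, i % 2 = 0 → coeff i U = 0 := by
    intro i hi
    rw [U, coeff_mk, if_neg (by omega)]
  have h2 := odd_mul h1 h1
  induction k with
  | zero =>
    intro i hi
    rw [mul_zero, pow_zero, coeff_one, if_neg (by omega)]
  | succ k ih =>
    rw [show 2 * (k + 1) = 2 * k + 2 by ring, pow_add, pow_two]
    exact even_mul ih h2

lemma U_low {k m : ℕ} (h : m < k) : coeff m (U ^ k) = 0 := by
  have h1 : (X : ℚ⟦X⟧) ∣ U := X_dvd_iff.2 const_U
  exact X_pow_dvd_iff.1 (pow_dvd_pow_of_dvd h1 k) m h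

lemma U_diag (k : ℕ) : coeff k (U ^ k) = 1 := by
  obtain ⟨h, hh⟩ : (X : ℚ⟦X⟧) ∣ U := X_dvd_iff.2 const_U
  have h1 : constantCoeff h = 1 := by
    have h2 : coeff 1 U = 1 := by
      rw [U, coeff_mk]; simp [u_zero]
    rw [hh, show (1 : ℕ) = 0 + 1 from rfl, coeff_succ_X_mul] at h2
    rw [← coeff_zero_eq_constantCoeff_apply]
    exact h2
  rw [hh, mul_pow, coeff_X_pow_mul', if_pos le_rfl, Nat.sub_self,
    coeff_zero_eq_constantCoeff_apply, map_pow, h1, one_pow]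

lemma d_eq (n : ℕ) : v n = ∑ k ∈ range (n + 1), r n k * d k := by
  have h1 : d n = v n - ∑ k ∈ range n, r n k * d k := by
    rw [d]
    rw [← Fin.sum_univ_eq_sum_range (fun k => r n k * d k)]
  have h2 : r n n = 1 := by
    unfold r
    rw [Nat.sub_self, U_diag]
    have : ((2 * n).factorial : ℚ) ≠ 0 := by positivity
    field_simp
  rw [sum_range_succ, h2, h1]
  ring

lemma X_dvd_F (N : ℕ) : (X : ℚ⟦X⟧) ^ (2 * N + 1) ∣
    Vt - ∑ k ∈ range (N + 1), C (d k / (2 ^ k * ((2 * k).factorial : ℚ))) * U ^ (2 * k) := by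
  rw [X_pow_dvd_iff]
  intro m hm
  rw [map_sub, map_sum]
  simp only [coeff_C_mul]
  rcases Nat.even_or_odd' m with ⟨n, rfl | rfl⟩
  · have hn : n ≤ N := by omega
    have h1 : ∑ k ∈ range (N + 1), d k / (2 ^ k * ((2 * k).factorial : ℚ)) *
        coeff (2 * n) (U ^ (2 * k)) = ∑ k ∈ range (n + 1), d k / (2 ^ k *
        ((2 * k).factorial : ℚ)) * coeff (2 * n) (U ^ (2 * k)) := by
      symm
      refine sum_subset (range_subset_range.2 (by omega)) fun k _ hk => ?_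
      rw [mem_range] at hk
      rw [U_low (by omega), mul_zero]
    have h2 : ∑ k ∈ range (n + 1), d k / (2 ^ k *
        ((2 * k).factorial : ℚ)) * coeff (2 * n) (U ^ (2 * k)) =
        (∑ k ∈ range (n + 1), r n k * d k) / (2 ^ n * ((2 * n).factorial : ℚ)) := by
      rw [sum_div]
      refine sum_congr rfl fun k hk => ?_
      rw [mem_range] at hk
      unfold r
      have e : (2 : ℚ) ^ n = 2 ^ k * 2 ^ (n - k) := by
        rw [← pow_add]; congr 1; omega
      rw [e]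
      have f1 : ((2 * k).factorial : ℚ) ≠ 0 := by positivity
      have f3 : ((2 * n).factorial : ℚ) ≠ 0 := by positivity
      field_simp
    rw [h1, h2, ← d_eq, Vt, coeff_mk, if_pos (by omega), show 2 * n / 2 = n by omega, div_div,
      sub_self]
  · rw [Vt, coeff_mk, if_neg (by omega), zero_sub, neg_eq_zero]
    refine sum_eq_zero fun k _ => ?_
    rw [U_even k _ (by omega), mul_zero]

theorem jobA : S_A := by
  intro hser n
  unfold S_ser2 at hser
  set g := D4 ℚ * P3 ^ 2 with hg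
  have h1 := const_iter g (2 * n) _ (X_dvd_F n)
  rw [iter_sub, map_sub, iter_sum, map_sum] at h1
  have h2 : ∀ k ∈ range n, constantCoeff ((dl g)^[2 * n]
      (C (d k / (2 ^ k * ((2 * k).factorial : ℚ))) * U ^ (2 * k))) = 0 := by
    intro k hk
    rw [mem_range] at hk
    rw [iter_C, iter_pow hser, Nat.descFactorial_of_lt (by omega)]
    simp
  rw [sum_range_succ, sum_eq_zero h2, zero_add, iter_C, iter_pow hser, Nat.descFactorial_self,
    Nat.sub_self, pow_zero, mul_one, ← map_mul] at h1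
  have h3 : constantCoeff (C (d n / (2 ^ n * ((2 * n).factorial : ℚ)) *
      ((2 * n).factorial : ℚ)) : ℚ⟦X⟧) = d n / 2 ^ n := by
    rw [constantCoeff_C]
    have f3 : ((2 * n).factorial : ℚ) ≠ 0 := by positivity
    field_simp
  rw [h3, sub_eq_zero] at h1
  unfold bb
  rw [h1]
  field_simp

end Pool.Agent.Q285.Theta.A
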