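import Mathlib
import Pool.Agent.Q254.Theta.Stm

/-!
# Theta coefficients, job B
-/

set_option autoImplicit false

open Finset

namespace Pool.Agent.Q285.Theta.B

open Pool.Agent.Q254.Theta

/-- `∏_{j<N} (4j+1)` -/
def E (N : ℕ) : ℕ := ∏ j ∈ range N, (4 * j + 1)

lemma Pi3_eq (N : ℕ) : Pi3 N = ((E N : ℕ) : ℚ) ^ 2 := by
  unfold Pi3 E
  rw [Nat.cast_prod, ← prod_pow]
  refine prod_congr rfl fun j _ => ?_
  push_cast
  ring

lemma E_pos (N : ℕ) : 0 < E N := prod_pos fun j _ => by omega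

lemma E_succ (N : ℕ) : E (N + 1) = E N * (4 * N + 1) := prod_range_succ _ _

lemma ratio_norm {p : ℕ} [hp : Fact p.Prime] {A B : ℕ} (hB : B ≠ 0)
    (h : p ^ padicValNat p B ∣ A) : ‖(((A : ℚ) / (B : ℚ) : ℚ) : ℚ_[p])‖ ≤ 1 := by
  obtain ⟨e, t, ht, hBt⟩ := Nat.exists_eq_pow_mul_and_not_dvd hB p hp.out.ne_one
  have ht0 : t ≠ 0 := by rintro rfl; exact ht (dvd_zero _)
  have he : padicValNat p B = e := by
    rw [hBt, padicValNat.mul (pow_ne_zero _ hp.out.ne_zero) ht0, padicValNat.prime_pow,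
      padicValNat.eq_zero_of_not_dvd ht, add_zero]
  rw [he] at h
  obtain ⟨s, rfl⟩ := h
  have hp0 : (p : ℚ) ≠ 0 := by exact_mod_cast hp.out.ne_zero
  have ht0' : (t : ℚ) ≠ 0 := by exact_mod_cast ht0
  have e1 : (((p ^ e * s : ℕ) : ℚ) / (B : ℚ)) = (s : ℚ) / (t : ℚ) := by
    rw [hBt]
    push_cast
    field_simp
  rw [e1]
  push_cast
  rw [norm_div]
  have h1 : ‖((t : ℕ) : ℚ_[p])‖ = 1 :=
    Padic.norm_natCast_eq_one_iff.2 ((Nat.Prime.coprime_iff_not_dvd hp.out).2 ht)
  rw [h1, div_one]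
  exact_mod_cast Padic.norm_int_le_one (p := p) (s : ℤ)

lemma pow_dvd_E {p m : ℕ} (hpm : p = 4 * m + 1) (k N : ℕ) (hk : ∀ i < k, p * i + m < N) :
    p ^ k * E k ∣ E N := by
  have h1 : p ^ k * E k = ∏ i ∈ range k, (4 * (p * i + m) + 1) := by
    unfold E
    rw [← card_range k, ← prod_const, card_range, ← prod_mul_distrib]
    refine prod_congr rfl fun i _ => ?_
    rw [hpm]; ring
  rw [h1]
  have hinj : ∀ i ∈ range k, ∀ j ∈ range k, p * i + m = p * j + m → i = j := by
    intro i _ j _ h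
    have h2 : p * i = p * j := by omega
    exact Nat.eq_of_mul_eq_mul_left (by omega) h2
  have h2 : ∏ i ∈ range k, (4 * (p * i + m) + 1) =
      ∏ j ∈ (range k).image (fun i => p * i + m), (4 * j + 1) := by
    rw [prod_image hinj]
  rw [h2]
  refine prod_dvd_prod_of_subset _ _ _ ?_
  intro j hj
  rw [mem_image] at hj
  obtain ⟨i, hi, rfl⟩ := hj
  rw [mem_range] at hi ⊢
  exact hk i hi

lemma val_le {p m : ℕ} [hp : Fact p.Prime] (hpm : p = 4 * m + 1) (hm : 1 ≤ m) : ∀ N : ℕ,
    padicValNat p (2 * N).factorial ≤ 2 * padicValNat p (E N) := by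
  intro N
  induction N using Nat.strong_induction_on with
  | _ N ih =>
    rcases Nat.eq_zero_or_pos N with rfl | hN
    · simp
    · set k := (N + 3 * m) / p with hk
      have hp0 : 0 < p := by omega
      have hklt : k < N := by
        rw [hk, Nat.div_lt_iff_lt_mul hp0, hpm]
        nlinarith
      have ih' := ih k hklt
      have hdm := Nat.div_add_mod (N + 3 * m) p
      have hml := Nat.mod_lt (N + 3 * m) hp0
      have h1 : p ^ k * E k ∣ E N := by
        refine pow_dvd_E hpm k N fun i hi => ?_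
        have h2 : p * (i + 1) ≤ p * k := Nat.mul_le_mul_left p hi
        have h3 : p * (i + 1) = p * i + p := by ring
        rw [← hk] at hdm
        omega
      have h2 : k + padicValNat p (E k) ≤ padicValNat p (E N) := by
        have h3 := (padicValNat_dvd_iff_le (p := p) (E_pos N).ne' (n := k + padicValNat p (E k))).1
          (by
            rw [pow_add]
            exact (mul_dvd_mul_left _ pow_padicValNat_dvd).trans h1)
        exact h3
      have h3 : padicValNat p (2 * N).factorial = padicValNat p (2 * N / p).factorial +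
          2 * N / p := by
        rw [← padicValNat_mul_div_factorial, padicValNat_factorial_mul]
      have h4 : 2 * N / p ≤ 2 * k := by
        rw [hk]
        have hN1 := Nat.div_add_mod N p
        have hN2 := Nat.mod_lt N hp0
        by_contra hcon
        push Not at hcon
        have h5 : p * (2 * ((N + 3 * m) / p) + 1) ≤ 2 * N := by
          have h6 : p * (2 * N / p) ≤ 2 * N := Nat.mul_div_le _ _
          exact (Nat.mul_le_mul_left p hcon).trans h6
        have h7 : N + 3 * m < p * ((N + 3 * m) / p) + p := by omega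
        have h8 : p * (2 * ((N + 3 * m) / p) + 1) = 2 * (p * ((N + 3 * m) / p)) + p := by ring
        omega
      have h5 : padicValNat p (2 * N / p).factorial ≤ padicValNat p (2 * k).factorial := by
        rw [← padicValNat_dvd_iff_le (Nat.factorial_ne_zero _)]
        exact pow_padicValNat_dvd.trans (Nat.factorial_dvd_factorial h4)
      omega

theorem b1 : S_B1 := by
  intro p hp h4 N
  have hp2 := hp.out.two_le
  obtain ⟨m, hm⟩ : ∃ m, p = 4 * m + 1 := ⟨p / 4, by omega⟩
  rw [Pi3_eq]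
  have h := ratio_norm (p := p) (A := E N ^ 2) (B := (2 * N).factorial) (Nat.factorial_ne_zero _)
    (by
      have h1 := val_le hm (by omega) N
      refine (pow_dvd_pow p h1).trans ?_
      rw [mul_comm, pow_mul]
      exact pow_dvd_pow_of_dvd pow_padicValNat_dvd 2)
  push_cast at h ⊢
  exact h

/-- Wilson's theorem for the arithmetic progression -/
lemma wilson {p m : ℕ} [hp : Fact p.Prime] (hpm : p = 4 * m + 1) (hm : 1 ≤ m) (K : ℕ) :
    ((∏ r ∈ (range p).erase m, (4 * (K * p + r) + 1) : ℕ) : ZMod p) = -1 := by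
  rw [← ZMod.prod_Ico_one_prime p, Nat.cast_prod]
  have hp0 : 0 < p := by omega
  have h4 : (4 : ZMod p) ≠ 0 := by
    intro h
    have h' : ((4 : ℕ) : ZMod p) = 0 := by exact_mod_cast h
    rw [ZMod.natCast_eq_zero_iff] at h'
    have := Nat.le_of_dvd (by norm_num) h'
    omega
  have hcast : ∀ r : ℕ, ((4 * (K * p + r) + 1 : ℕ) : ZMod p) = 4 * (r : ZMod p) + 1 := by
    intro r
    push_cast
    rw [ZMod.natCast_self]
    ring
  have hm0 : 4 * (m : ZMod p) + 1 = 0 := by
    have : ((4 * m + 1 : ℕ) : ZMod p) = 0 := by rw [← hpm, ZMod.natCast_self]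
    push_cast at this
    exact this
  refine prod_nbij' (fun r => (4 * (r : ZMod p) + 1 : ZMod p).val)
    (fun x => (((x : ZMod p) - 1) / 4).val) ?_ ?_ ?_ ?_ ?_
  · intro r hr
    rw [mem_erase, mem_range] at hr
    rw [mem_Ico]
    refine ⟨?_, ZMod.val_lt _⟩
    rw [Nat.one_le_iff_ne_zero, Ne, ZMod.val_eq_zero]
    intro h
    apply hr.1
    have h1 : 4 * (r : ZMod p) = 4 * (m : ZMod p) := by linear_combination h - hm0
    have h2 := mul_left_cancel₀ h4 h1
    rw [ZMod.natCast_eq_natCast_iff', Nat.mod_eq_of_lt hr.2, Nat.mod_eq_of_lt (by omega)] at h2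
    exact h2
  · intro x hx
    rw [mem_Ico] at hx
    rw [mem_erase, mem_range]
    refine ⟨?_, ZMod.val_lt _⟩
    intro h
    have h1 : ((x : ZMod p) - 1) / 4 = (m : ZMod p) := by
      rw [← h, ZMod.natCast_zmod_val]
    have h2 : (x : ZMod p) = 0 := by
      rw [div_eq_iff h4] at h1
      linear_combination h1 + hm0
    rw [ZMod.natCast_eq_zero_iff] at h2
    exact absurd (Nat.le_of_dvd (by omega) h2) (by omega)
  · intro r hr
    rw [mem_erase, mem_range] at hr
    rw [ZMod.natCast_zmod_val, add_sub_cancel_right, mul_div_cancel_left₀ _ h4,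
      ZMod.val_natCast, Nat.mod_eq_of_lt hr.2]
  · intro x hx
    rw [mem_Ico] at hx
    rw [ZMod.natCast_zmod_val, mul_div_cancel₀ _ h4, sub_add_cancel, ZMod.val_natCast,
      Nat.mod_eq_of_lt hx.2]
  · intro r hr
    rw [hcast, ZMod.natCast_zmod_val]

lemma E_block {p m : ℕ} [hp : Fact p.Prime] (hpm : p = 4 * m + 1) (hm : 1 ≤ m) : ∀ K : ℕ,
    ∃ x : ℕ, E (K * p) = p ^ K * E K * x ∧ (x : ZMod p) ^ 2 = 1 := by
  intro K
  induction K with
  | zero => exact ⟨1, by simp [E], by simp⟩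
  | succ K ih =>
    obtain ⟨x, hx, hx2⟩ := ih
    refine ⟨x * ∏ r ∈ (range p).erase m, (4 * (K * p + r) + 1), ?_, ?_⟩
    · have h1 : E ((K + 1) * p) = E (K * p) * ∏ r ∈ range p, (4 * (K * p + r) + 1) := by
        unfold E
        rw [show (K + 1) * p = K * p + p by ring, prod_range_add]
      have h2 : ∏ r ∈ range p, (4 * (K * p + r) + 1) = (4 * (K * p + m) + 1) *
          ∏ r ∈ (range p).erase m, (4 * (K * p + r) + 1) :=
        (mul_prod_erase _ _ (mem_range.2 (by omega))).symm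
      rw [h1, h2, hx, E_succ]
      have h3 : 4 * (K * p + m) + 1 = p * (4 * K + 1) := by
        calc 4 * (K * p + m) + 1 = 4 * K * p + (4 * m + 1) := by ring
          _ = p * (4 * K + 1) := by rw [← hpm]; ring
      rw [h3]
      ring
    · rw [Nat.cast_mul, wilson hpm hm K, mul_pow, hx2]
      ring

lemma fact_block {p : ℕ} [hp : Fact p.Prime] : ∀ n : ℕ,
    ∃ y : ℕ, (n * p).factorial = p ^ n * n.factorial * y ∧ (y : ZMod p) = (-1) ^ n := by
  have hp2 := hp.out.two_le
  intro n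
  induction n with
  | zero => exact ⟨1, by simp, by simp⟩
  | succ n ih =>
    obtain ⟨y, hy, hy2⟩ := ih
    refine ⟨y * ∏ r ∈ range (p - 1), (n * p + r + 1), ?_, ?_⟩
    · have h1 : ((n + 1) * p).factorial = (n * p).factorial *
          ∏ r ∈ range p, (n * p + r + 1) := by
        rw [← prod_range_add_one_eq_factorial, ← prod_range_add_one_eq_factorial,
          show (n + 1) * p = n * p + p by ring, prod_range_add]
      have h2 : ∏ r ∈ range p, (n * p + r + 1) = (∏ r ∈ range (p - 1), (n * p + r + 1)) *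
          (n * p + (p - 1) + 1) := by
        rw [← prod_range_succ, show p - 1 + 1 = p by omega]
      rw [h1, h2, hy, Nat.factorial_succ]
      have h3 : n * p + (p - 1) + 1 = p * (n + 1) := by
        have : n * p + (p - 1) + 1 = n * p + p := by omega
        rw [this]; ring
      rw [h3]
      ring
    · rw [Nat.cast_mul, hy2, Nat.cast_prod]
      have h4 : ∏ r ∈ range (p - 1), ((n * p + r + 1 : ℕ) : ZMod p) = -1 := by
        have h5 : ∏ r ∈ range (p - 1), ((n * p + r + 1 : ℕ) : ZMod p) =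
            ((p - 1).factorial : ZMod p) := by
          rw [← prod_range_add_one_eq_factorial, Nat.cast_prod]
          refine prod_congr rfl fun r _ => ?_
          push_cast
          rw [ZMod.natCast_self]
          ring
        rw [h5, ZMod.wilsons_lemma]
      rw [h4, pow_succ]

theorem b2 : S_B2 := by
  intro p hp h4 K
  have hp2 := hp.out.two_le
  obtain ⟨m, hm⟩ : ∃ m, p = 4 * m + 1 := ⟨p / 4, by omega⟩
  have hm1 : 1 ≤ m := by omega
  obtain ⟨x, hx, hx2⟩ := E_block hm hm1 K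
  obtain ⟨y, hy, hy2⟩ := fact_block (p := p) (2 * K)
  have hy3 : (y : ZMod p) = 1 := by rw [hy2, pow_mul]; simp
  have hy0 : ¬ p ∣ y := by
    intro h
    rw [← ZMod.natCast_eq_zero_iff, hy3] at h
    exact one_ne_zero h
  have hy1 : y ≠ 0 := by rintro rfl; exact hy0 (dvd_zero _)
  have hb := b1 p h4 K
  have hp0 : (p : ℚ) ≠ 0 := by exact_mod_cast hp.out.ne_zero
  have hyq : (y : ℚ) ≠ 0 := by exact_mod_cast hy1
  have hfq : ((2 * K).factorial : ℚ) ≠ 0 := by positivity
  have key : Pi3 (K * p) / ((2 * (K * p)).factorial : ℚ) - Pi3 K / ((2 * K).factorial : ℚ) =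
      Pi3 K / ((2 * K).factorial : ℚ) * ((((x : ℤ) ^ 2 - (y : ℤ) : ℤ) : ℚ) / (y : ℚ)) := by
    rw [Pi3_eq (K * p), hx, show 2 * (K * p) = 2 * K * p by ring, hy, Pi3_eq K]
    push_cast
    field_simp
    ring
  rw [key]
  have hdvd : (p : ℤ) ∣ (x : ℤ) ^ 2 - (y : ℤ) := by
    rw [← ZMod.intCast_zmod_eq_zero_iff_dvd]
    push_cast
    rw [hx2, hy3]
    ring
  have h1 : ‖((((x : ℤ) ^ 2 - (y : ℤ) : ℤ)) : ℚ_[p])‖ < 1 := Padic.norm_intCast_lt_one_iff.2 hdvd
  have h2 : ‖((y : ℕ) : ℚ_[p])‖ = 1 :=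
    Padic.norm_natCast_eq_one_iff.2 ((Nat.Prime.coprime_iff_not_dvd hp.out).2 hy0)
  have h3 : ‖(((((x : ℤ) ^ 2 - (y : ℤ) : ℤ) : ℚ) / (y : ℚ) : ℚ) : ℚ_[p])‖ =
      ‖((((x : ℤ) ^ 2 - (y : ℤ) : ℤ)) : ℚ_[p])‖ := by
    rw [Rat.cast_div, Rat.cast_intCast, Rat.cast_natCast, norm_div, h2, div_one]
  rw [Rat.cast_mul, norm_mul, h3]
  calc ‖((Pi3 K / ((2 * K).factorial : ℚ) : ℚ) : ℚ_[p])‖ *
        ‖((((x : ℤ) ^ 2 - (y : ℤ) : ℤ)) : ℚ_[p])‖
      ≤ 1 * ‖((((x : ℤ) ^ 2 - (y : ℤ) : ℤ)) : ℚ_[p])‖ :=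
        mul_le_mul_of_nonneg_right hb (norm_nonneg _)
    _ < 1 := by rw [one_mul]; exact h1

end Pool.Agent.Q285.Theta.B
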