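import Mathlib
import Pool.Agent.Q254.Theta.Stm

/-!
# Theta coefficients, job LU
-/

set_option autoImplicit false

open PowerSeries Finset

namespace Pool.Agent.Q285.Theta.L

open Pool.Agent.Q254.Theta

lemma coeff_pow_p (p : ℕ) [hp : Fact p.Prime] (f : (ZMod p)⟦X⟧) (n : ℕ) :
    coeff n (f ^ p) = if p ∣ n then coeff (n / p) f else 0 := by
  have h1 : (PowerSeries.expand p hp.out.ne_zero f) = f ^ p := by
    have h2 := MvPowerSeries.map_frobenius_expand (σ := Unit) (R := ZMod p) p hp.out.ne_zero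
      (f := f)
    rw [ZMod.frobenius_zmod] at h2
    simpa [PowerSeries.expand] using h2
  rw [← h1, PowerSeries.coeff_expand]

variable {p : ℕ} [hp : Fact p.Prime] {a : ℕ → ZMod p}

lemma cast_ne {j : ℕ} (h1 : 1 ≤ j) (h2 : j < p) : (j : ZMod p) ≠ 0 := by
  intro h
  rw [ZMod.natCast_eq_zero_iff] at h
  exact absurd (Nat.le_of_dvd h1 h) (by omega)

lemma stepk (H : Rec p a) (k j : ℕ) : ((j : ZMod p) + 2) * ((j : ZMod p) + 1) *
    a (k * p + (j + 2)) = (2 * (j : ZMod p) + 1) ^ 2 * a (k * p + j) := by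
  have h := H.step (k * p + j)
  have e : ((k * p + j : ℕ) : ZMod p) = (j : ZMod p) := by
    push_cast
    rw [ZMod.natCast_self]
    ring
  rw [e] at h
  exact h

lemma even_part (H : Rec p a) (k : ℕ) : ∀ i : ℕ, 2 * i < p →
    a (k * p + 2 * i) = a (k * p) * a (2 * i) := by
  intro i
  induction i with
  | zero => intro _; rw [mul_zero, add_zero, H.zero, mul_one]
  | succ i ih =>
    intro hi
    have ih' := ih (by omega)
    have h1 := stepk H k (2 * i)
    have h2 := stepk H 0 (2 * i)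
    rw [zero_mul, zero_add, zero_add] at h2
    have e1 : (((2 * i : ℕ) : ZMod p) + 2) * (((2 * i : ℕ) : ZMod p) + 1) ≠ 0 := by
      have c1 := cast_ne (p := p) (j := 2 * i + 2) (by omega) (by omega)
      have c2 := cast_ne (p := p) (j := 2 * i + 1) (by omega) (by omega)
      push_cast at c1 c2 ⊢
      exact mul_ne_zero c1 c2
    rw [show 2 * (i + 1) = 2 * i + 2 by ring]
    apply mul_left_cancel₀ e1
    rw [h1, ih']
    linear_combination (-a (k * p)) * h2

lemma odd_part (H : Rec p a) (h4 : p % 4 = 1) (k : ℕ) : ∀ i : ℕ, 2 * i + 3 ≤ p →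
    a (k * p + (p - 2 - 2 * i)) = 0 := by
  have hp2 := hp.out.two_le
  have hp5 : 5 ≤ p := by omega
  intro i
  induction i with
  | zero =>
    intro _
    have h1 := stepk H k (p - 2)
    have e1 : ((p - 2 : ℕ) : ZMod p) = -2 := by
      rw [Nat.cast_sub (by omega), ZMod.natCast_self]
      push_cast; ring
    rw [e1] at h1
    have h2 : (-2 + 2 : ZMod p) = 0 := by ring
    rw [h2, zero_mul, zero_mul] at h1
    have h3 : ((2 * (-2) + 1 : ZMod p)) ^ 2 ≠ 0 := by
      refine pow_ne_zero _ ?_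
      have c := cast_ne (p := p) (j := 3) (by omega) (by omega)
      intro h
      apply c
      push_cast
      linear_combination -h
    rw [mul_zero, Nat.sub_zero]
    exact (mul_eq_zero.1 h1.symm).resolve_left h3
  | succ i ih =>
    intro hi
    have ih' := ih (by omega)
    set j := p - 2 - 2 * (i + 1) with hj
    have e1 : p - 2 - 2 * i = j + 2 := by omega
    rw [e1] at ih'
    have h1 := stepk H k j
    rw [ih', mul_zero] at h1
    have h3 : (2 * (j : ZMod p) + 1) ^ 2 ≠ 0 := by
      refine pow_ne_zero _ ?_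
      intro h
      have h5 : ((2 * j + 1 : ℕ) : ZMod p) = 0 := by push_cast; exact h
      rw [ZMod.natCast_eq_zero_iff] at h5
      obtain ⟨c, hc⟩ := h5
      have hlt : 2 * j + 1 < p * 2 := by omega
      have hc1 : c = 1 := by
        have : c < 2 := by
          by_contra hcc
          have := Nat.mul_le_mul_left p (show 2 ≤ c by omega)
          omega
        have : c ≠ 0 := by rintro rfl; omega
        omega
      subst hc1
      omega
    exact (mul_eq_zero.1 h1.symm).resolve_left h3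

lemma high_part (H : Rec p a) (h4 : p % 4 = 1) : ∀ i : ℕ, (p - 1) / 2 + 2 * (i + 1) < p →
    a ((p - 1) / 2 + 2 * (i + 1)) = 0 := by
  have hp2 := hp.out.two_le
  intro i
  induction i with
  | zero =>
    intro hi
    have h1 := stepk H 0 ((p - 1) / 2)
    rw [zero_mul, zero_add, zero_add] at h1
    have h5 : 2 * (((p - 1) / 2 : ℕ) : ZMod p) + 1 = 0 := by
      have : ((2 * ((p - 1) / 2) + 1 : ℕ) : ZMod p) = 0 := by
        rw [show 2 * ((p - 1) / 2) + 1 = p by omega, ZMod.natCast_self]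
      push_cast at this
      exact this
    rw [h5] at h1
    have e1 : ((((p - 1) / 2 : ℕ) : ZMod p) + 2) * ((((p - 1) / 2 : ℕ) : ZMod p) + 1) ≠ 0 := by
      have c1 := cast_ne (p := p) (j := (p - 1) / 2 + 2) (by omega) (by omega)
      have c2 := cast_ne (p := p) (j := (p - 1) / 2 + 1) (by omega) (by omega)
      push_cast at c1 c2 ⊢
      exact mul_ne_zero c1 c2
    have h6 : ((((p - 1) / 2 : ℕ) : ZMod p) + 2) * ((((p - 1) / 2 : ℕ) : ZMod p) + 1) *
        a ((p - 1) / 2 + 2) = 0 := by rw [h1]; ring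
    simpa using (mul_eq_zero.1 h6).resolve_left e1
  | succ i ih =>
    intro hi
    have ih' := ih (by omega)
    have h1 := stepk H 0 ((p - 1) / 2 + 2 * (i + 1))
    rw [zero_mul, zero_add, zero_add, ih', mul_zero] at h1
    have e1 : (((((p - 1) / 2 + 2 * (i + 1) : ℕ)) : ZMod p) + 2) *
        (((((p - 1) / 2 + 2 * (i + 1) : ℕ)) : ZMod p) + 1) ≠ 0 := by
      have c1 := cast_ne (p := p) (j := (p - 1) / 2 + 2 * (i + 1) + 2) (by omega) (by omega)
      have c2 := cast_ne (p := p) (j := (p - 1) / 2 + 2 * (i + 1) + 1) (by omega) (by omega)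
      have d1 : (((p - 1) / 2 + 2 * (i + 1) + 2 : ℕ) : ZMod p) =
        ((((p - 1) / 2 + 2 * (i + 1) : ℕ)) : ZMod p) + 2 := by push_cast; ring
      have d2 : (((p - 1) / 2 + 2 * (i + 1) + 1 : ℕ) : ZMod p) =
        ((((p - 1) / 2 + 2 * (i + 1) : ℕ)) : ZMod p) + 1 := by push_cast; ring
      rw [d1] at c1
      rw [d2] at c2
      exact mul_ne_zero c1 c2
    have h7 := (mul_eq_zero.1 h1).resolve_left e1
    rw [show (p - 1) / 2 + 2 * (i + 1 + 1) = (p - 1) / 2 + 2 * (i + 1) + 2 by ring]
    exact h7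

theorem lu : S_lucas := by
  intro p hp h4 a H hk
  have hp2 := hp.out.two_le
  have hp5 : 5 ≤ p := by omega
  ext n
  rw [coeff_mk, coeff_mul]
  obtain ⟨k, j, hj, rfl⟩ : ∃ k j, j < p ∧ n = k * p + j :=
    ⟨n / p, n % p, Nat.mod_lt _ (by omega), by rw [mul_comm]; exact (Nat.div_add_mod n p).symm⟩
  rw [Finset.sum_eq_single (k * p, j)]
  · rw [coeff_pow_p, if_pos (Dvd.intro_left _ rfl), Nat.mul_div_cancel _ (by omega), coeff_mk, HH,
      coeff_mk]
    by_cases hje : j % 2 = 0
    · obtain ⟨i, rfl⟩ : ∃ i, j = 2 * i := ⟨j / 2, by omega⟩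
      rw [even_part H k i hj, hk]
      split_ifs with h
      · rfl
      · obtain ⟨c, hc⟩ : ∃ c, 2 * i = (p - 1) / 2 + 2 * (c + 1) :=
          ⟨(2 * i - (p - 1) / 2) / 2 - 1, by omega⟩
        rw [hc, high_part H h4 c (by omega), mul_zero]
    · obtain ⟨i, hi, hi2⟩ : ∃ i, j = p - 2 - 2 * i ∧ 2 * i + 3 ≤ p :=
        ⟨(p - 2 - j) / 2, by omega, by omega⟩
      have h1 : a (k * p + j) = 0 := by rw [hi]; exact odd_part H h4 k i hi2
      rw [h1]
      split_ifs with h
      · rw [H.odd j (by omega), mul_zero]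
      · rw [mul_zero]
  · rintro ⟨x, y⟩ hxy hne
    rw [HasAntidiagonal.mem_antidiagonal] at hxy
    simp only at hxy
    rw [coeff_pow_p, HH]
    simp only [coeff_mk]
    by_cases hy : y ≤ (p - 1) / 2
    · rw [if_neg, zero_mul]
      rintro ⟨c, rfl⟩
      apply hne
      have hyp : y < p := by omega
      have e1 : (p * c + y) % p = y := by rw [Nat.mul_add_mod, Nat.mod_eq_of_lt hyp]
      have e2 : (k * p + j) % p = j := by
        rw [mul_comm k p, Nat.mul_add_mod, Nat.mod_eq_of_lt hj]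
      have e3 : y = j := by rw [← e1, ← e2, hxy]
      subst e3
      have e4 : p * c = k * p := by omega
      rw [e4]
    · rw [if_neg hy, mul_zero]
  · intro h
    exfalso
    apply h
    rw [HasAntidiagonal.mem_antidiagonal]

end Pool.Agent.Q285.Theta.L
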