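import Mathlib
import Pool.Agent.Q254.Theta.Stm

/-!
# Theta coefficients, job SER
-/

set_option autoImplicit false

open PowerSeries Finset

namespace Pool.Agent.Q285.Theta

open Pool.Agent.Q254.Theta

lemma sum_even (G : ℕ → ℚ) (h : ∀ i, i % 2 = 1 → G i = 0) (n : ℕ) :
    ∑ i ∈ range (2 * n + 1), G i = ∑ a ∈ range (n + 1), G (2 * a) := by
  induction n with
  | zero => simp
  | succ n ih =>
    rw [show 2 * (n + 1) + 1 = 2 * n + 1 + 1 + 1 by ring, sum_range_succ, sum_range_succ, ih,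
      h (2 * n + 1) (by omega), sum_range_succ _ (n + 1)]
    rw [show 2 * n + 1 + 1 = 2 * (n + 1) by ring]
    ring

lemma sum_odd (G : ℕ → ℚ) (h : ∀ i, i % 2 = 0 → G i = 0) (n : ℕ) :
    ∑ i ∈ range (2 * n + 2), G i = ∑ a ∈ range (n + 1), G (2 * a + 1) := by
  induction n with
  | zero => simp [sum_range_succ, h 0]
  | succ n ih =>
    rw [show 2 * (n + 1) + 2 = 2 * n + 2 + 1 + 1 by ring, sum_range_succ, sum_range_succ, ih,
      h (2 * n + 2) (by omega), sum_range_succ _ (n + 1)]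
    rw [show 2 * n + 2 + 1 = 2 * (n + 1) + 1 by ring]
    ring

lemma v_succ (n : ℕ) : v (n + 1) = 2 ^ n * Pi3 (n + 1) - 1 / 2 * ∑ m ∈ range n,
      ((2 * (n + 1)).choose (2 * (m + 1)) : ℚ) * v (m + 1) * v (n + 1 - (m + 1)) := by
  rw [v]
  rw [← Fin.sum_univ_eq_sum_range (fun m =>
    ((2 * (n + 1)).choose (2 * (m + 1)) : ℚ) * v (m + 1) * v (n + 1 - (m + 1)))]

lemma v_conv (n : ℕ) : ∑ a ∈ range (n + 1), ((2 * n).choose (2 * a) : ℚ) * (v a * v (n - a)) =
    2 ^ n * Pi3 n := by
  cases n with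
  | zero => simp [v, Pi3]
  | succ n =>
    rw [sum_range_succ, sum_range_succ']
    have h1 : ∑ k ∈ range n, ((2 * (n + 1)).choose (2 * (k + 1)) : ℚ) *
        (v (k + 1) * v (n + 1 - (k + 1))) = ∑ m ∈ range n,
      ((2 * (n + 1)).choose (2 * (m + 1)) : ℚ) * v (m + 1) * v (n + 1 - (m + 1)) :=
      sum_congr rfl fun k _ => by ring
    rw [h1]
    have h2 := v_succ n
    have h0 : v 0 = 1 := by rw [v]
    simp only [mul_zero, Nat.choose_zero_right, Nat.cast_one, one_mul, h0, Nat.sub_zero,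
      Nat.sub_self, mul_one, Nat.choose_self]
    rw [pow_succ]
    linarith

lemma fact_choose {n a : ℕ} (h : a ≤ n) :
    ((2 * n).choose (2 * a) : ℚ) = ((2 * n).factorial : ℚ) /
      (((2 * a).factorial : ℚ) * ((2 * n - 2 * a).factorial : ℚ)) := by
  rw [Nat.cast_choose ℚ (by omega)]

theorem ser1 : S_ser1 := by
  unfold S_ser1
  ext k
  rw [pow_two, coeff_mul, Finset.Nat.sum_antidiagonal_eq_sum_range_succ
    (fun i j => coeff i Vt * coeff j Vt)]
  simp only [Vt, P3, coeff_mk]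
  rcases Nat.even_or_odd' k with ⟨n, rfl | rfl⟩
  · rw [sum_even _ (fun i hi => by rw [if_neg (by omega), zero_mul])]
    rw [if_pos (by omega)]
    have h1 : ∀ a ∈ range (n + 1),
        ((if 2 * a % 2 = 0 then v (2 * a / 2) / 2 ^ (2 * a / 2) / ((2 * a).factorial : ℚ) else 0) *
          if (2 * n - 2 * a) % 2 = 0 then v ((2 * n - 2 * a) / 2) / 2 ^ ((2 * n - 2 * a) / 2) /
            ((2 * n - 2 * a).factorial : ℚ) else 0) =
        ((2 * n).choose (2 * a) : ℚ) * (v a * v (n - a)) / (2 ^ n * ((2 * n).factorial : ℚ)) := by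
      intro a ha
      rw [mem_range] at ha
      rw [if_pos (by omega), if_pos (by omega), fact_choose (by omega : a ≤ n)]
      rw [show 2 * a / 2 = a by omega, show (2 * n - 2 * a) / 2 = n - a by omega]
      have e : (2 : ℚ) ^ n = 2 ^ a * 2 ^ (n - a) := by
        rw [← pow_add]; congr 1; omega
      rw [e]
      have f1 : ((2 * a).factorial : ℚ) ≠ 0 := by positivity
      have f2 : ((2 * n - 2 * a).factorial : ℚ) ≠ 0 := by positivity
      have f3 : ((2 * n).factorial : ℚ) ≠ 0 := by positivity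
      field_simp
    rw [sum_congr rfl h1, ← sum_div, v_conv, show 2 * n / 2 = n by omega]
    have f3 : ((2 * n).factorial : ℚ) ≠ 0 := by positivity
    field_simp
  · rw [if_neg (by omega)]
    refine sum_eq_zero fun i hi => ?_
    rw [mem_range] at hi
    rcases Nat.even_or_odd' i with ⟨m, rfl | rfl⟩
    · rw [if_neg (show ¬ (2 * n + 1 - 2 * m) % 2 = 0 by omega), mul_zero]
    · rw [if_neg (show ¬ (2 * m + 1) % 2 = 0 by omega), zero_mul]

lemma u_eq (n : ℕ) : u n = Pi1 n - ∑ m ∈ range n,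
      ((2 * n + 1).choose (2 * m + 1) : ℚ) * Pi3 (n - m) * u m := by
  rw [u]
  rw [← Fin.sum_univ_eq_sum_range (fun m =>
    ((2 * n + 1).choose (2 * m + 1) : ℚ) * Pi3 (n - m) * u m)]

lemma u_conv (n : ℕ) : ∑ m ∈ range (n + 1),
    ((2 * n + 1).choose (2 * m + 1) : ℚ) * Pi3 (n - m) * u m = Pi1 n := by
  rw [sum_range_succ]
  have h := u_eq n
  have h0 : Pi3 0 = 1 := by simp [Pi3]
  rw [Nat.sub_self, h0, Nat.choose_self]
  push_cast
  linarith

lemma U_mul : U * P3 = P1 := by
  ext k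
  rw [coeff_mul, Finset.Nat.sum_antidiagonal_eq_sum_range_succ
    (fun i j => coeff i U * coeff j P3)]
  simp only [U, P3, P1, coeff_mk]
  rcases Nat.even_or_odd' k with ⟨n, rfl | rfl⟩
  · rw [if_neg (by omega)]
    refine sum_eq_zero fun i hi => ?_
    rw [mem_range] at hi
    rcases Nat.even_or_odd' i with ⟨m, rfl | rfl⟩
    · rw [if_neg (show ¬ (2 * m) % 2 = 1 by omega), zero_mul]
    · rw [if_neg (show ¬ (2 * n - (2 * m + 1)) % 2 = 0 by omega), mul_zero]
  · rw [show (2 * n + 1).succ = 2 * n + 2 from rfl,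
      sum_odd _ (fun i hi => by rw [if_neg (by omega), zero_mul])]
    rw [if_pos (by omega)]
    have h1 : ∀ a ∈ range (n + 1),
        ((if (2 * a + 1) % 2 = 1 then u ((2 * a + 1) / 2) / ((2 * a + 1).factorial : ℚ) else 0) *
          if (2 * n + 1 - (2 * a + 1)) % 2 = 0 then Pi3 ((2 * n + 1 - (2 * a + 1)) / 2) /
            ((2 * n + 1 - (2 * a + 1)).factorial : ℚ) else 0) =
        ((2 * n + 1).choose (2 * a + 1) : ℚ) * Pi3 (n - a) * u a /
          ((2 * n + 1).factorial : ℚ) := by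
      intro a ha
      rw [mem_range] at ha
      rw [if_pos (by omega), if_pos (by omega), Nat.cast_choose ℚ (by omega : 2 * a + 1 ≤ 2 * n + 1)]
      rw [show (2 * a + 1) / 2 = a by omega, show (2 * n + 1 - (2 * a + 1)) / 2 = n - a by omega]
      have f1 : ((2 * a + 1).factorial : ℚ) ≠ 0 := by positivity
      have f2 : ((2 * n + 1 - (2 * a + 1)).factorial : ℚ) ≠ 0 := by positivity
      have f3 : ((2 * n + 1).factorial : ℚ) ≠ 0 := by positivity
      field_simp
    rw [sum_congr rfl h1, ← sum_div, u_conv, show (2 * n + 1) / 2 = n by omega]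

/-- the differential equation from the recursion -/
lemma ode {a : ℕ → ℚ} (h : ∀ k : ℕ, ((k : ℚ) + 2) * ((k : ℚ) + 1) * a (k + 2) =
    (2 * (k : ℚ) + 1) ^ 2 * a k) :
    PowerSeries.derivative ℚ (D4 ℚ * PowerSeries.derivative ℚ (PowerSeries.mk a)) =
      PowerSeries.mk a := by
  have hc : ∀ k, coeff k (D4 ℚ * PowerSeries.derivative ℚ (PowerSeries.mk a)) =
      ((k : ℚ) + 1) * a (k + 1) - 4 * ((k : ℚ) - 1) * (if 1 ≤ k then a (k - 1) else 0) := by
    intro k
    unfold D4
    have e : (1 - 4 * (X : ℚ⟦X⟧) ^ 2) * PowerSeries.derivative ℚ (PowerSeries.mk a) =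
        PowerSeries.derivative ℚ (PowerSeries.mk a) -
          X ^ 2 * (C (4 : ℚ) * PowerSeries.derivative ℚ (PowerSeries.mk a)) := by
      have : (C (4 : ℚ) : ℚ⟦X⟧) = 4 := map_ofNat C 4
      rw [this]; ring
    rw [e, map_sub, coeff_X_pow_mul', coeff_derivative, coeff_mk]
    split_ifs with h1 h2 h2
    · rw [coeff_C_mul, coeff_derivative, coeff_mk]
      rw [show k - 2 + 1 = k - 1 by omega]
      have : ((k - 2 : ℕ) : ℚ) = (k : ℚ) - 2 := by push_cast [Nat.cast_sub h1]; ring
      rw [this]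
      ring
    · omega
    · have : k = 1 := by omega
      subst this
      simp
      ring
    · ring
  ext k
  rw [coeff_derivative, hc, coeff_mk, if_pos (by omega), show k + 1 - 1 = k by omega]
  have := h k
  push_cast
  linear_combination this

lemma Pi3_succ (N : ℕ) : Pi3 (N + 1) = (4 * (N : ℚ) + 1) ^ 2 * Pi3 N := by
  unfold Pi3
  rw [prod_range_succ]
  ring

lemma Pi1_succ (N : ℕ) : Pi1 (N + 1) = (4 * (N : ℚ) + 3) ^ 2 * Pi1 N := by
  unfold Pi1
  rw [prod_range_succ]
  ring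

lemma ode3 : PowerSeries.derivative ℚ (D4 ℚ * PowerSeries.derivative ℚ P3) = P3 := by
  refine ode fun k => ?_
  rcases Nat.even_or_odd' k with ⟨n, rfl | rfl⟩
  · rw [if_pos (by omega), if_pos (by omega), show (2 * n + 2) / 2 = n + 1 by omega,
      show 2 * n / 2 = n by omega, Pi3_succ]
    rw [show 2 * n + 2 = 2 * n + 1 + 1 by ring, Nat.factorial_succ, Nat.factorial_succ]
    have f3 : ((2 * n).factorial : ℚ) ≠ 0 := by positivity
    push_cast
    field_simp
    ring
  · rw [if_neg (by omega), if_neg (by omega), mul_zero, mul_zero]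

lemma ode1 : PowerSeries.derivative ℚ (D4 ℚ * PowerSeries.derivative ℚ P1) = P1 := by
  refine ode fun k => ?_
  rcases Nat.even_or_odd' k with ⟨n, rfl | rfl⟩
  · rw [if_neg (by omega), if_neg (by omega), mul_zero, mul_zero]
  · rw [if_pos (by omega), if_pos (by omega), show (2 * n + 1 + 2) / 2 = n + 1 by omega,
      show (2 * n + 1) / 2 = n by omega, Pi1_succ]
    rw [show 2 * n + 1 + 2 = 2 * n + 1 + 1 + 1 by ring, Nat.factorial_succ, Nat.factorial_succ]
    have f3 : ((2 * n + 1).factorial : ℚ) ≠ 0 := by positivity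
    push_cast
    field_simp
    ring

lemma leib (f g : ℚ⟦X⟧) : PowerSeries.derivative ℚ (f * g) =
    f * PowerSeries.derivative ℚ g + g * PowerSeries.derivative ℚ f := by
  rw [Derivation.leibniz, smul_eq_mul, smul_eq_mul]

theorem ser2 : S_ser2 := by
  unfold S_ser2
  set p1' := PowerSeries.derivative ℚ P1 with hp1
  set p3' := PowerSeries.derivative ℚ P3 with hp3
  have hW : D4 ℚ * (p1' * P3 - P1 * p3') = 1 := by
    refine PowerSeries.derivative.ext ?_ ?_
    · have e : D4 ℚ * (p1' * P3 - P1 * p3') = (D4 ℚ * p1') * P3 - P1 * (D4 ℚ * p3') := by ring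
      rw [e, map_sub, leib (D4 ℚ * p1') P3, leib P1 (D4 ℚ * p3'), ode1, ode3, derivative_one, ← hp1, ← hp3]
      ring
    · have h1 : constantCoeff (D4 ℚ) = 1 := by simp [D4]
      have h2 : constantCoeff P3 = 1 := by
        rw [← coeff_zero_eq_constantCoeff_apply, P3, coeff_mk]; simp [Pi3]
      have h3 : constantCoeff P1 = 0 := by
        rw [← coeff_zero_eq_constantCoeff_apply, P1, coeff_mk]; simp
      have h4 : constantCoeff p1' = 1 := by
        rw [← coeff_zero_eq_constantCoeff_apply, hp1, coeff_derivative, P1, coeff_mk]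
        simp [Pi1]
      rw [map_mul, map_sub, map_mul, map_mul, h1, h2, h3, h4]
      simp
  have hU : PowerSeries.derivative ℚ U * P3 ^ 2 = p1' * P3 - P1 * p3' := by
    have h := congrArg (PowerSeries.derivative ℚ) U_mul
    rw [leib] at h
    rw [← hp1, ← hp3] at h
    rw [← U_mul]
    linear_combination P3 * h
  calc D4 ℚ * P3 ^ 2 * PowerSeries.derivative ℚ U
      = D4 ℚ * (PowerSeries.derivative ℚ U * P3 ^ 2) := by ring
    _ = 1 := by rw [hU, hW]

end Pool.Agent.Q285.Theta
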